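import Pool.Agent.Y123.ST.Exp
import Mathlib.RingTheory.Nilpotent.Exp

/-!
# Exponentials of nilpotent elements of the Lie algebra of a subtorsor
-/

set_option autoImplicit false
set_option linter.unusedSectionVars false

open Matrix MvPolynomial

namespace Pool.Agent.Q92.PT

open Pool.Agent.TH127.PT Pool.Agent.Y123.ST

variable {B : Type} [Fintype B] [DecidableEq B] {K : Subfield ℂ} {T : Set (Matrix B B ℂ)}

/-- evaluation of a polynomial along a polynomial curve -/
theorem eval_aeval {ι : Type*} [Fintype ι] (g : ι → Polynomial ℂ) (P : MvPolynomial ι ℂ) (s : ℂ) :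
    Polynomial.eval s (aeval g P) = eval (fun b => (g b).eval s) P := by
  induction P using MvPolynomial.induction_on with
  | C a => simp
  | add p q hp hq => rw [map_add, Polynomial.eval_add, hp, hq, map_add]
  | mul_X p b hp => rw [map_mul, Polynomial.eval_mul, hp, aeval_X, map_mul, eval_X]

theorem exp_eq {E : Matrix B B ℂ} {k : ℕ} (hk : E ^ k = 0) :
    IsNilpotent.exp E = ∑ i ∈ Finset.range k, ((i.factorial : ℂ)⁻¹) • E ^ i := by
  rw [IsNilpotent.exp_eq_sum hk]
  refine Finset.sum_congr rfl fun i _ => ?_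
  ext a b
  rw [Matrix.smul_apply, Matrix.smul_apply, smul_eq_mul]
  rw [Rat.smul_def]
  push_cast
  rfl

/-- the curve `exp (s E) x` -/
noncomputable def cv (E x : Matrix B B ℂ) (k : ℕ) (b : B × B) : Polynomial ℂ :=
  ∑ i ∈ Finset.range (k + 1), Polynomial.C ((i.factorial : ℂ)⁻¹ * (E ^ i * x) b.1 b.2) * Polynomial.X ^ i

theorem cv_zero (E x : Matrix B B ℂ) (k : ℕ) (b : B × B) : (cv E x k b).eval 0 = x b.1 b.2 := by
  unfold cv
  rw [Polynomial.eval_finset_sum, Finset.sum_eq_single 0]
  · simp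
  · intro i _ hi
    simp [zero_pow hi]
  · intro h
    exact absurd (Finset.mem_range.2 (Nat.succ_pos k)) h

theorem cv_one {E : Matrix B B ℂ} (x : Matrix B B ℂ) {k : ℕ} (hk : E ^ (k + 1) = 0) (b : B × B) :
    (cv E x k b).eval 1 = (IsNilpotent.exp E * x) b.1 b.2 := by
  unfold cv
  rw [exp_eq hk, Polynomial.eval_finset_sum, Finset.sum_mul, Matrix.sum_apply]
  refine Finset.sum_congr rfl fun i _ => ?_
  simp

theorem cv_deriv {E : Matrix B B ℂ} (x : Matrix B B ℂ) {k : ℕ} (hk : E ^ (k + 1) = 0) (b : B × B) :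
    aeval (cv E x k) (sb (ml E) b) = Polynomial.derivative (cv E x k b) := by
  have h1 : aeval (cv E x k) (sb (ml E) b) =
      ∑ i ∈ Finset.range (k + 1), Polynomial.C ((i.factorial : ℂ)⁻¹ * (E ^ (i + 1) * x) b.1 b.2) * Polynomial.X ^ i := by
    unfold sb cv
    rw [map_sum]
    have h2 : ∀ m : B × B, aeval (fun b => ∑ i ∈ Finset.range (k + 1),
        Polynomial.C ((i.factorial : ℂ)⁻¹ * (E ^ i * x) b.1 b.2) * Polynomial.X ^ i)
        (C (ml E (Pi.single m 1) b) * X m) = ∑ i ∈ Finset.range (k + 1),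
        Polynomial.C ((i.factorial : ℂ)⁻¹ * (ml E (Pi.single m 1) b * fl (E ^ i * x) m)) * Polynomial.X ^ i := by
      intro m
      rw [map_mul, aeval_X, aeval_C, Finset.mul_sum]
      refine Finset.sum_congr rfl fun i _ => ?_
      have h3 : (algebraMap ℂ (Polynomial ℂ)) (ml E (Pi.single m 1) b) = Polynomial.C (ml E (Pi.single m 1) b) := rfl
      have h4 : fl (E ^ i * x) m = (E ^ i * x) m.1 m.2 := rfl
      rw [h3, h4]
      simp only [map_mul]
      ring
    rw [Finset.sum_congr rfl fun m _ => h2 m, Finset.sum_comm]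
    refine Finset.sum_congr rfl fun i _ => ?_
    rw [← Finset.sum_mul, ← map_sum, ← Finset.mul_sum, ← lin_apply (ml E) (fl (E ^ i * x)) b, ml_fl, ← Matrix.mul_assoc,
      ← pow_succ']
    rfl
  rw [h1, Finset.sum_range_succ, hk, Matrix.zero_mul]
  have h5 : (0 : Matrix B B ℂ) b.1 b.2 = 0 := rfl
  rw [h5, mul_zero, map_zero, zero_mul, add_zero]
  unfold cv
  rw [Finset.sum_range_succ', map_add]
  have h6 : Polynomial.derivative (Polynomial.C (((0 : ℕ).factorial : ℂ)⁻¹ * (E ^ 0 * x) b.1 b.2) *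
      (Polynomial.X : Polynomial ℂ) ^ 0) = 0 := by simp
  rw [h6, add_zero, Polynomial.derivative_sum]
  refine Finset.sum_congr rfl fun i _ => ?_
  rw [Polynomial.derivative_C_mul, Polynomial.derivative_X_pow, Nat.add_sub_cancel, ← mul_assoc]
  congr 1
  rw [← Polynomial.C_mul]
  congr 1
  rw [Nat.factorial_succ]
  push_cast
  have h7 : ((i : ℂ) + 1) ≠ 0 := by
    have := Nat.cast_add_one_ne_zero (R := ℂ) i
    exact this
  have h8 : (i.factorial : ℂ) ≠ 0 := Nat.cast_ne_zero.2 i.factorial_ne_zero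
  field_simp

/-- exponentials of nilpotent elements of the Lie algebra act on the subtorsor -/
theorem exp_mem (hT : IsSubtorsor K T) {E x : Matrix B B ℂ} (hE : IsNilpotent E) (hEL : fl E ∈ LL T) (hx : x ∈ T) :
    IsNilpotent.exp E * x ∈ T := by
  obtain ⟨k0, hk0⟩ := hE
  have hk : E ^ (k0 + 1) = 0 := by rw [pow_succ, hk0, Matrix.zero_mul]
  have hxT := hx
  have hT' := hT
  obtain ⟨I, h1, h2⟩ := hT.algebraic
  have hIV : ∀ p ∈ I, Van T p := fun p hp y hy => ((h2 y).1 hy).2 p hp
  have hz := all_zero (Van T) (fun P => aeval (cv E x k0) P) (DL E) 0 1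
    (by simp) (by
      intro P hP
      rw [eval_aeval]
      have h3 : (fun b => (cv E x k0 b).eval 0) = fl x := by
        funext b
        exact cv_zero E x k0 b
      rw [h3]
      exact hP x hx) (fun P hP => van_DL hEL hP) (by
      intro P _
      rw [one_mul, deriv_aeval]
      unfold DL
      rw [map_sum]
      refine Finset.sum_congr rfl fun b _ => ?_
      rw [map_mul, cv_deriv x hk])
  rw [h2]
  refine ⟨?_, fun p hp => ?_⟩
  · exact IsUnit.mul (IsNilpotent.isUnit_exp ⟨k0, hk0⟩) (hT'.isUnit x hxT)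
  · have h3 := hz p (hIV p hp)
    have h4 := eval_aeval (cv E x k0) p 1
    rw [h3, Polynomial.eval_zero] at h4
    have h6 : (fun b => (cv E x k0 b).eval 1) = fun b => (IsNilpotent.exp E * x) b.1 b.2 := by
      funext b
      exact cv_one x hk b
    rw [h6] at h4
    exact h4.symm

/-- a polynomial curve in a subspace has its coefficients in the subspace; here for the conjugates by `exp (t E)` -/
theorem bracket_mem {V : Submodule ℂ (B × B → ℂ)} {E w : Matrix B B ℂ} (hE : IsNilpotent E)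
    (h : ∀ t : ℂ, fl (IsNilpotent.exp (t • E) * w * IsNilpotent.exp (-(t • E))) ∈ V) : fl (E * w - w * E) ∈ V := by
  obtain ⟨k0, hk0⟩ := hE
  have hk : E ^ (k0 + 2) = 0 := by rw [pow_add, hk0, Matrix.zero_mul]
  by_contra hcon
  obtain ⟨f, hf1, hf2⟩ := Submodule.exists_le_ker_of_notMem hcon
  apply hf1
  set p : Polynomial ℂ := ∑ i ∈ Finset.range (k0 + 2), ∑ j ∈ Finset.range (k0 + 2),
    Polynomial.C ((i.factorial : ℂ)⁻¹ * ((-1) ^ j * (j.factorial : ℂ)⁻¹) * f (fl (E ^ i * w * E ^ j))) *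
      Polynomial.X ^ (i + j) with hp
  have hexp : ∀ t : ℂ, IsNilpotent.exp (t • E) = ∑ i ∈ Finset.range (k0 + 2), ((i.factorial : ℂ)⁻¹ * t ^ i) • E ^ i := by
    intro t
    rw [exp_eq (k := k0 + 2) (by rw [smul_pow, hk, smul_zero])]
    refine Finset.sum_congr rfl fun i _ => ?_
    rw [smul_pow, smul_smul]
  have hexp' : ∀ t : ℂ, IsNilpotent.exp (-(t • E)) =
      ∑ j ∈ Finset.range (k0 + 2), ((-1) ^ j * (j.factorial : ℂ)⁻¹ * t ^ j) • E ^ j := by
    intro t
    rw [← neg_smul, hexp]
    refine Finset.sum_congr rfl fun i _ => ?_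
    congr 1
    rw [neg_pow]
    ring
  have hfl : ∀ x y : Matrix B B ℂ, fl (x + y) = fl x + fl y := fl_add
  let F : Matrix B B ℂ →ₗ[ℂ] ℂ :=
    { toFun := fun x => f (fl x)
      map_add' := fun x y => by rw [fl_add, map_add]
      map_smul' := fun a x => by rw [fl_smul, map_smul]; rfl }
  have hF : ∀ x, f (fl x) = F x := fun x => rfl
  have hev : ∀ t : ℂ, p.eval t = 0 := by
    intro t
    have h1 : f (fl (IsNilpotent.exp (t • E) * w * IsNilpotent.exp (-(t • E)))) = 0 := hf2 (h t)
    rw [hexp, hexp', hF, Finset.sum_mul, Finset.sum_mul, map_sum] at h1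
    rw [hp, Polynomial.eval_finset_sum, ← h1]
    refine Finset.sum_congr rfl fun i _ => ?_
    rw [Polynomial.eval_finset_sum, Finset.mul_sum, map_sum]
    refine Finset.sum_congr rfl fun j _ => ?_
    rw [Matrix.smul_mul, Matrix.smul_mul, Matrix.mul_smul, map_smul, map_smul, hF]
    simp only [Polynomial.eval_mul, Polynomial.eval_C, Polynomial.eval_pow, Polynomial.eval_X, smul_eq_mul]
    ring
  have hp0 : p = 0 := Polynomial.funext fun t => by rw [hev, Polynomial.eval_zero]
  have hc : p.coeff 1 = f (fl (E * w)) - f (fl (w * E)) := by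
    rw [hp, Polynomial.finset_sum_coeff]
    have h3 : ∀ i ∈ Finset.range (k0 + 2), (∑ j ∈ Finset.range (k0 + 2),
        Polynomial.C ((i.factorial : ℂ)⁻¹ * ((-1) ^ j * (j.factorial : ℂ)⁻¹) * f (fl (E ^ i * w * E ^ j))) *
          Polynomial.X ^ (i + j)).coeff 1 = ∑ j ∈ Finset.range (k0 + 2), if 1 = i + j then
            ((i.factorial : ℂ)⁻¹ * ((-1) ^ j * (j.factorial : ℂ)⁻¹) * f (fl (E ^ i * w * E ^ j))) else 0 := by
      intro i _
      rw [Polynomial.finset_sum_coeff]
      refine Finset.sum_congr rfl fun j _ => ?_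
      rw [Polynomial.coeff_C_mul, Polynomial.coeff_X_pow]
      split_ifs <;> simp
    rw [Finset.sum_congr rfl h3, Finset.sum_range_succ', Finset.sum_range_succ', Finset.sum_eq_zero, zero_add]
    · rw [Finset.sum_range_succ', Finset.sum_eq_zero, zero_add]
      · rw [Finset.sum_range_succ', Finset.sum_range_succ', Finset.sum_eq_zero, zero_add]
        · simp
          ring
        · intro j _
          rw [if_neg (by omega)]
      · intro j _
        rw [if_neg (by omega)]
    · intro i _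
      refine Finset.sum_eq_zero fun j _ => ?_
      rw [if_neg (by omega)]
  rw [hp0, Polynomial.coeff_zero] at hc
  have h7 : fl (E * w - w * E) = fl (E * w) - fl (w * E) := rfl
  rw [h7, map_sub, ← hc]

end Pool.Agent.Q92.PT
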