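import Pool.Agent.Q92.PT.Exp
import Pool.Agent.H461R3.Jacobi

/-!
# The vanishing single periods of the adjoint motive decide the smallest subtorsor
-/

set_option autoImplicit false
set_option linter.unusedSectionVars false

open Matrix MvPolynomial

namespace Pool.Agent.Q92.PT

open Pool.Agent.TH127.PT Pool.Agent.Y123.ST

variable {B : Type} [Fintype B] [DecidableEq B] {K : Subfield ℂ} {T P : Set (Matrix B B ℂ)} {r : ℕ}
  {Z : Submodule ℂ (Matrix B B ℂ)} {s : Fin r → Submodule ℂ (Matrix B B ℂ)} {c : Matrix B B ℂ}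

section der

/-- derivations kill algebraic numbers -/
theorem der_alg (D : Derivation K ℂ ℂ) {z : ℂ} (hz : IsAlgebraic ℚ z) : D z = 0 := by
  have hzK : IsAlgebraic K z := hz.extendScalars (algebraMap ℚ K).injective
  have hint : IsIntegral K z := hzK.isIntegral
  have h1 := D.map_aeval (minpoly K z) z
  rw [minpoly.aeval, map_zero] at h1
  have hsep : (minpoly K z).Separable := (minpoly.irreducible hint).separable
  have h2 : Polynomial.aeval z (Polynomial.derivative (minpoly K z)) ≠ 0 :=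
    hsep.aeval_derivative_ne_zero (minpoly.aeval K z)
  exact (smul_eq_zero.1 h1.symm).resolve_left h2

/-- derivations over `K` detect transcendental numbers -/
theorem exists_der_ne (hK : ∀ x ∈ K, IsAlgebraic ℚ x) {z : ℂ} (hz : Transcendental ℚ z) :
    ∃ D : Derivation K ℂ ℂ, D z ≠ 0 := by
  have _ : Algebra.IsAlgebraic ℚ K := ⟨fun x => by
    have h1 := hK x x.2
    exact (isAlgebraic_algebraMap_iff (A := ℂ) (algebraMap K ℂ).injective).1 h1⟩
  have hzK : Transcendental K z := by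
    intro h
    exact hz (h.restrictScalars ℚ)
  have hind : AlgebraicIndependent K (fun _ : Unit => z) := (algebraicIndependent_unique_type_iff).2 hzK
  obtain ⟨D, hD⟩ := Pool.Agent.H135R2.VS.exists_der hind (fun _ => (1 : ℂ))
  refine ⟨D, ?_⟩
  have h1 := hD ()
  rw [h1]
  exact one_ne_zero

theorem map_der_mul (D : Derivation K ℂ ℂ) (A C : Matrix B B ℂ) :
    (A * C).map D = A.map D * C + A * C.map D := by
  ext i j
  simp only [Matrix.map_apply, Matrix.mul_apply, Matrix.add_apply, map_sum, D.leibniz, smul_eq_mul,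
    Finset.sum_add_distrib]
  rw [add_comm]
  congr 1
  exact Finset.sum_congr rfl fun k _ => by ring

theorem map_der_alg (D : Derivation K ℂ ℂ) {A : Matrix B B ℂ} (hA : ∀ i j, IsAlgebraic ℚ (A i j)) :
    A.map D = 0 := by
  ext i j
  rw [Matrix.map_apply, Matrix.zero_apply]
  exact der_alg D (hA i j)

end der

/-- the decomposition of the Lie algebra -/
structure Dec (P : Set (Matrix B B ℂ)) (Z : Submodule ℂ (Matrix B B ℂ)) (s : Fin r → Submodule ℂ (Matrix B B ℂ)) :
    Prop where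
  sub : ∀ i, ∀ u ∈ s i, fl u ∈ LL P
  sup : ∀ w, fl w ∈ LL P → ∃ z ∈ Z, ∃ v : Fin r → Matrix B B ℂ, (∀ i, v i ∈ s i) ∧ w = z + ∑ i, v i
  zcomm : ∀ z ∈ Z, ∀ i, ∀ u ∈ s i, u * z = z * u
  comm : ∀ i j, i ≠ j → ∀ u ∈ s i, ∀ v ∈ s j, u * v = v * u
  lie : ∀ i, ∀ u ∈ s i, ∀ v ∈ s i, u * v - v * u ∈ s i
  centre : ∀ i, ∀ u ∈ s i, (∀ v ∈ s i, u * v = v * u) → u = 0
  simple : ∀ i, ∀ W : Submodule ℂ (Matrix B B ℂ), W ≤ s i → (∀ u ∈ s i, ∀ w ∈ W, u * w - w * u ∈ W) →
    W = ⊥ ∨ W = s i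
  nil : ∀ i, s i ≤ Submodule.span ℂ {E | E ∈ s i ∧ IsNilpotent E}

/-- the group of `P` is generated by the scalars and the exponentials of the nilpotent elements of the `s i` -/
def Gen (P : Set (Matrix B B ℂ)) (s : Fin r → Submodule ℂ (Matrix B B ℂ)) : Prop :=
  ∀ x ∈ P, ∀ y ∈ P, x * y⁻¹ ∈ Submonoid.closure ({g : Matrix B B ℂ | ∃ z : ℂ, z ≠ 0 ∧ g = z • 1} ∪
    {g | ∃ i, ∃ E ∈ s i, IsNilpotent E ∧ g = IsNilpotent.exp E})

/-- the vanishing periods `tr (A c C c⁻¹)` of the adjoint object, `A` and `C` over `K`, vanish on `P` -/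
def Vp (K : Subfield ℂ) (c : Matrix B B ℂ) (P : Set (Matrix B B ℂ)) : Prop :=
  ∀ A C : Matrix B B ℂ, (∀ i j, A i j ∈ K) → (∀ i j, C i j ∈ K) → (A * c * C * c⁻¹).trace = 0 →
    ∀ x ∈ P, (A * x * C * x⁻¹).trace = 0

theorem sum_eq_trace (u : B × B → ℂ) (M : Matrix B B ℂ) : ∑ b, u b * fl M b = ((um u)ᵀ * M).trace := by
  rw [Fintype.sum_prod_type]
  simp only [Matrix.trace, Matrix.diag_apply, Matrix.mul_apply, Matrix.transpose_apply]
  rw [Finset.sum_comm]
  rfl

/-- the Lie algebra of the subtorsor is stable under the group of `P` -/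
theorem stab (hT : IsSubtorsor K T) (hcT : c ∈ T) (hv : Vp K c P) {x w : Matrix B B ℂ} (hx : x ∈ P)
    (hw : fl w ∈ LL T) : fl (c * x⁻¹ * w * x * c⁻¹) ∈ LL T := by
  have h1 : fl (x⁻¹ * w * x) ∈ RR T := by
    refine conj_of_rel hT hcT ?_ hw
    intro A u hA hu h0
    rw [sum_eq_trace] at h0 ⊢
    have h2 : ∀ y : Matrix B B ℂ, ((um u)ᵀ * (y⁻¹ * A * y)).trace = (A * y * (um u)ᵀ * y⁻¹).trace := by
      intro y
      have h3 : (um u)ᵀ * (y⁻¹ * A * y) = ((um u)ᵀ * y⁻¹) * (A * y) := by simp only [Matrix.mul_assoc]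
      rw [h3, Matrix.trace_mul_comm]
      simp only [Matrix.mul_assoc]
    rw [h2] at h0 ⊢
    exact hv A (um u)ᵀ hA (fun i j => hu (j, i)) h0 x hx
  have h3 := conj_mem' hT hcT h1
  have h4 : c * (x⁻¹ * w * x) * c⁻¹ = c * x⁻¹ * w * x * c⁻¹ := by simp only [Matrix.mul_assoc]
  rw [h4] at h3
  exact h3

theorem exp_stab (hP : IsSubtorsor K P) (hcP : c ∈ P) (hd : Dec P Z s) (hT : IsSubtorsor K T) (hcT : c ∈ T)
    (hv : Vp K c P) {i : Fin r} {E w : Matrix B B ℂ} (hE : IsNilpotent E) (hEs : E ∈ s i) (hw : fl w ∈ LL T) :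
    fl (IsNilpotent.exp E * w * IsNilpotent.exp (-E)) ∈ LL T := by
  have hEn : IsNilpotent (-E) := hE.neg
  have hx : IsNilpotent.exp (-E) * c ∈ P := exp_mem hP hEn (hd.sub i _ ((s i).neg_mem hEs)) hcP
  have h1 := stab hT hcT hv hx hw
  have h2 : (IsNilpotent.exp (-E) * c)⁻¹ = c⁻¹ * IsNilpotent.exp E := by
    rw [Matrix.mul_inv_rev]
    congr 1
    exact Matrix.inv_eq_left_inv (IsNilpotent.exp_mul_exp_neg_self hE)
  have hcc : c * c⁻¹ = 1 := mul_inv' hP hcP
  have h3 : c * (IsNilpotent.exp (-E) * c)⁻¹ * w * (IsNilpotent.exp (-E) * c) * c⁻¹ =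
      IsNilpotent.exp E * w * IsNilpotent.exp (-E) := by
    rw [h2]
    calc c * (c⁻¹ * IsNilpotent.exp E) * w * (IsNilpotent.exp (-E) * c) * c⁻¹ =
        (c * c⁻¹) * IsNilpotent.exp E * w * IsNilpotent.exp (-E) * (c * c⁻¹) := by simp only [Matrix.mul_assoc]
      _ = _ := by rw [hcc, Matrix.one_mul, Matrix.mul_one]
  rw [h3] at h1
  exact h1

theorem br_nil (hP : IsSubtorsor K P) (hcP : c ∈ P) (hd : Dec P Z s) (hT : IsSubtorsor K T) (hcT : c ∈ T)
    (hv : Vp K c P) {i : Fin r} {E w : Matrix B B ℂ} (hE : IsNilpotent E) (hEs : E ∈ s i) (hw : fl w ∈ LL T) :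
    fl (E * w - w * E) ∈ LL T := by
  refine bracket_mem hE fun t => ?_
  exact exp_stab hP hcP hd hT hcT hv (hE.smul t) ((s i).smul_mem t hEs) hw

theorem br (hP : IsSubtorsor K P) (hcP : c ∈ P) (hd : Dec P Z s) (hT : IsSubtorsor K T) (hcT : c ∈ T)
    (hv : Vp K c P) {i : Fin r} {u w : Matrix B B ℂ} (hu : u ∈ s i) (hw : fl w ∈ LL T) :
    fl (u * w - w * u) ∈ LL T := by
  have h1 := hd.nil i hu
  clear hu
  induction h1 using Submodule.span_induction with
  | mem E hE => exact br_nil hP hcP hd hT hcT hv hE.2 hE.1 hw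
  | zero =>
    rw [Matrix.zero_mul, Matrix.mul_zero, sub_zero, fl_zero]
    exact (LL T).zero_mem
  | add x y _ _ hx hy =>
    have h2 : (x + y) * w - w * (x + y) = (x * w - w * x) + (y * w - w * y) := by
      rw [Matrix.add_mul, Matrix.mul_add]
      abel
    rw [h2, fl_add]
    exact (LL T).add_mem hx hy
  | smul a x _ hx =>
    have h2 : (a • x) * w - w * (a • x) = a • (x * w - w * x) := by
      rw [Matrix.smul_mul, Matrix.mul_smul, smul_sub]
    rw [h2, fl_smul]
    exact (LL T).smul_mem a hx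

/-- commutators with elements of `s i` only see the component in `s i` -/
theorem comm_comp (hd : Dec P Z s) {i : Fin r} {u : Matrix B B ℂ} (hu : u ∈ s i) {z : Matrix B B ℂ} (hz : z ∈ Z)
    {v : Fin r → Matrix B B ℂ} (hv : ∀ j, v j ∈ s j) :
    u * (z + ∑ j, v j) - (z + ∑ j, v j) * u = u * v i - v i * u := by
  rw [Matrix.mul_add, Matrix.add_mul, hd.zcomm z hz i u hu,
    add_sub_add_left_eq_sub, Finset.mul_sum, Finset.sum_mul, ← Finset.sum_sub_distrib, Finset.sum_eq_single i]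
  · intro j _ hj
    rw [hd.comm i j (Ne.symm hj) u hu (v j) (hv j), sub_self]
  · intro h
    exact absurd (Finset.mem_univ i) h

theorem simple_mem (hP : IsSubtorsor K P) (hcP : c ∈ P) (hd : Dec P Z s) (hT : IsSubtorsor K T) (hcT : c ∈ T)
    (hv : Vp K c P) {i : Fin r} {C : Matrix B B ℂ} (hC : ∀ a b, IsAlgebraic ℚ (C a b))
    (hCs : c * C * c⁻¹ ∈ s i) {D : Derivation K ℂ ℂ} (hD : (c * C * c⁻¹).map D ≠ 0) :
    ∀ u ∈ s i, fl u ∈ LL T := by
  set w := c.map D * c⁻¹ with hw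
  set u := c * C * c⁻¹ with hu
  have hcc : c * c⁻¹ = 1 := mul_inv' hP hcP
  have hcc' : c⁻¹ * c = 1 := inv_mul' hP hcP
  have hwT : fl w ∈ LL T := logder_mem hT D hcT
  have hwP : fl w ∈ LL P := logder_mem hP D hcP
  -- the derivative of `u`
  have h1 : u.map D = w * u - u * w := by
    have h2 : u * c = c * C := by rw [hu, Matrix.mul_assoc, hcc', Matrix.mul_one]
    have h3 : (u * c).map D = (c * C).map D := by rw [h2]
    rw [map_der_mul D u c, map_der_mul D c C, map_der_alg D hC, Matrix.mul_zero, add_zero] at h3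
    have h4 : u.map D * c = c.map D * C - u * c.map D := eq_sub_of_add_eq h3
    calc u.map D = u.map D * c * c⁻¹ := by rw [Matrix.mul_assoc, hcc, Matrix.mul_one]
      _ = (c.map D * C - u * c.map D) * c⁻¹ := by rw [h4]
      _ = c.map D * (c⁻¹ * c) * C * c⁻¹ - u * (c.map D * c⁻¹) := by
          rw [hcc', Matrix.mul_one, Matrix.sub_mul, Matrix.mul_assoc u]
      _ = w * u - u * w := by
          rw [hw, hu]
          simp only [Matrix.mul_assoc]
  obtain ⟨a, haZ, v, hvs, hwe⟩ := hd.sup w hwP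
  have h5 : v i ≠ 0 := by
    intro h0
    apply hD
    rw [h1]
    have h6 := comm_comp hd hCs haZ hvs
    rw [← hwe, h0, Matrix.mul_zero, Matrix.zero_mul, sub_zero] at h6
    rw [← neg_sub, h6, neg_zero]
  -- the intersection with `s i`
  let W : Submodule ℂ (Matrix B B ℂ) :=
    { carrier := {x | x ∈ s i ∧ fl x ∈ LL T}
      zero_mem' := ⟨(s i).zero_mem, by rw [fl_zero]; exact (LL T).zero_mem⟩
      add_mem' := fun {x y} hx hy => ⟨(s i).add_mem hx.1 hy.1, by rw [fl_add]; exact (LL T).add_mem hx.2 hy.2⟩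
      smul_mem' := fun z x hx => ⟨(s i).smul_mem z hx.1, by rw [fl_smul]; exact (LL T).smul_mem z hx.2⟩ }
  have hWs : W ≤ s i := fun x hx => hx.1
  have hWb : ∀ x ∈ s i, ∀ y ∈ W, x * y - y * x ∈ W := fun x hx y hy =>
    ⟨hd.lie i x hx y hy.1, br hP hcP hd hT hcT hv hx hy.2⟩
  rcases hd.simple i W hWs hWb with h7 | h7
  · exfalso
    apply h5
    refine hd.centre i (v i) (hvs i) fun x hx => ?_
    have h8 : x * v i - v i * x ∈ W := by
      refine ⟨hd.lie i x hx (v i) (hvs i), ?_⟩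
      rw [← comm_comp hd hx haZ hvs, ← hwe]
      exact br hP hcP hd hT hcT hv hx hwT
    rw [h7, Submodule.mem_bot, sub_eq_zero] at h8
    exact h8.symm
  · intro x hx
    rw [← h7] at hx
    exact hx.2

theorem trace_zero (hd : Dec P Z s) {i : Fin r} {u : Matrix B B ℂ} (hu : u ∈ s i) : u.trace = 0 := by
  have h1 := hd.nil i hu
  clear hu
  induction h1 using Submodule.span_induction with
  | mem E hE => exact (Matrix.isNilpotent_trace_of_isNilpotent hE.2).eq_zero
  | zero => exact Matrix.trace_zero _ _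
  | add x y _ _ hx hy => rw [Matrix.trace_add, hx, hy, add_zero]
  | smul a x _ hx => rw [Matrix.trace_smul, hx, smul_zero]

/-- every simple factor with a transcendental period lies in the Lie algebra of every subtorsor containing `c` -/
theorem simple_le (hK : ∀ x ∈ K, IsAlgebraic ℚ x) (hP : IsSubtorsor K P) (hcP : c ∈ P) (hd : Dec P Z s)
    (hT : IsSubtorsor K T) (hcT : c ∈ T) (hv : Vp K c P) {i : Fin r}
    (hna : ∃ C : Matrix B B ℂ, (∀ a b, IsAlgebraic ℚ (C a b)) ∧ c * C * c⁻¹ ∈ s i ∧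
      ∃ a b, Transcendental ℚ ((c * C * c⁻¹) a b)) : ∀ u ∈ s i, fl u ∈ LL T := by
  obtain ⟨C, hC, hCs, a, b, hab⟩ := hna
  obtain ⟨D, hD⟩ := exists_der_ne hK hab
  refine simple_mem hP hcP hd hT hcT hv hC hCs (D := D) fun h0 => hD ?_
  have := congrFun (congrFun h0 a) b
  rwa [Matrix.map_apply, Matrix.zero_apply] at this

/-- the derived group acts on every subtorsor containing `c` -/
theorem derived (hK : ∀ x ∈ K, IsAlgebraic ℚ x) (hP : IsSubtorsor K P) (hcP : c ∈ P) (hd : Dec P Z s)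
    (hT : IsSubtorsor K T) (hcT : c ∈ T) (hv : Vp K c P)
    (hna : ∀ i, ∃ C : Matrix B B ℂ, (∀ a b, IsAlgebraic ℚ (C a b)) ∧ c * C * c⁻¹ ∈ s i ∧
      ∃ a b, Transcendental ℚ ((c * C * c⁻¹) a b)) {g : Matrix B B ℂ}
    (hg : g ∈ Submonoid.closure {g : Matrix B B ℂ | ∃ i, ∃ E ∈ s i, IsNilpotent E ∧ g = IsNilpotent.exp E}) :
    ∀ x ∈ T, g * x ∈ T := by
  induction hg using Submonoid.closure_induction with
  | mem g hg =>
    intro x hx
    obtain ⟨i, E, hE, hEn, rfl⟩ := hg
    exact exp_mem hT hEn (simple_le hK hP hcP hd hT hcT hv (hna i) E hE) hx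
  | one => intro x hx; rwa [Matrix.one_mul]
  | mul g h _ _ hg hh =>
    intro x hx
    rw [Matrix.mul_assoc]
    exact hg _ (hh _ hx)

/-- **Main theorem**: no simple factor has only algebraic periods -/
theorem full (hK : ∀ x ∈ K, IsAlgebraic ℚ x) (hP : IsSubtorsor K P) (hcP : c ∈ P)
    (hd : Dec P (Submodule.span ℂ {1}) s) (hgen : Gen P s)
    (hT : IsSubtorsor K T) (hcT : c ∈ T) (hv : Vp K c P) (hdet : Transcendental ℚ c.det)
    (hna : ∀ i, ∃ C : Matrix B B ℂ, (∀ a b, IsAlgebraic ℚ (C a b)) ∧ c * C * c⁻¹ ∈ s i ∧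
      ∃ a b, Transcendental ℚ ((c * C * c⁻¹) a b)) : P ⊆ T := by
  have hs : ∀ i, ∀ u ∈ s i, fl u ∈ LL T := fun i => simple_le hK hP hcP hd hT hcT hv (hna i)
  have h1 : fl (1 : Matrix B B ℂ) ∈ LL T := by
    obtain ⟨D, hD⟩ := exists_der_ne hK hdet
    have hwT : fl (c.map D * c⁻¹) ∈ LL T := logder_mem hT D hcT
    have hwP : fl (c.map D * c⁻¹) ∈ LL P := logder_mem hP D hcP
    obtain ⟨z, hz, v, hvs, hwe⟩ := hd.sup _ hwP
    obtain ⟨a, rfl⟩ := Submodule.mem_span_singleton.1 hz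
    have ha : a ≠ 0 := by
      rintro rfl
      apply hD
      rw [zero_smul, zero_add] at hwe
      have h2 : (c.map D * c⁻¹).trace = 0 := by
        rw [hwe, Matrix.trace_sum]
        exact Finset.sum_eq_zero fun i _ => trace_zero hd (hvs i)
      rw [Pool.Agent.H461R3.deriv_det]
      have hcu : IsUnit c.det := (Matrix.isUnit_iff_isUnit_det c).1 (hP.isUnit c hcP)
      have h3 : c.adjugate = c.det • c⁻¹ := by
        rw [Matrix.inv_def, smul_smul, Ring.mul_inverse_cancel _ hcu, one_smul]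
      rw [h3, Matrix.smul_mul, Matrix.trace_smul, Matrix.trace_mul_comm, h2, smul_zero]
    have h4 : fl (1 : Matrix B B ℂ) = a⁻¹ • (fl (c.map D * c⁻¹) - ∑ i, fl (v i)) := by
      have h5 : ∑ i, fl (v i) = fl (∑ i, v i) := by
        funext b
        rw [Finset.sum_apply]
        show _ = (∑ i, v i) b.1 b.2
        rw [Matrix.sum_apply]
        rfl
      have h6 : fl (c.map D * c⁻¹) - ∑ i, fl (v i) = a • fl (1 : Matrix B B ℂ) := by
        rw [h5, hwe, fl_add, fl_smul, add_sub_cancel_right]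
      rw [h6, smul_smul, inv_mul_cancel₀ ha, one_smul]
    rw [h4]
    refine (LL T).smul_mem _ ((LL T).sub_mem hwT ((LL T).sum_mem fun i _ => hs i _ (hvs i)))
  -- the group of `P` acts on `T`
  have hact : ∀ g ∈ Submonoid.closure ({g : Matrix B B ℂ | ∃ z : ℂ, z ≠ 0 ∧ g = z • 1} ∪
      {g | ∃ i, ∃ E ∈ s i, IsNilpotent E ∧ g = IsNilpotent.exp E}), ∀ x ∈ T, g * x ∈ T := by
    intro g hg
    induction hg using Submonoid.closure_induction with
    | mem g hg =>
      intro x hx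
      rcases hg with ⟨z, hz, rfl⟩ | ⟨i, E, hE, hEn, rfl⟩
      · rw [Matrix.smul_mul, Matrix.one_mul]
        exact exp_one hT h1 hx hz
      · exact exp_mem hT hEn (hs i E hE) hx
    | one => intro x hx; rwa [Matrix.one_mul]
    | mul g h _ _ hg hh =>
      intro x hx
      rw [Matrix.mul_assoc]
      exact hg _ (hh _ hx)
  intro x hx
  have h2 := hact _ (hgen x hx c hcP) c hcT
  rwa [Matrix.mul_assoc, inv_mul' hP hcP, Matrix.mul_one] at h2

/-- over the field of all algebraic numbers the vanishing periods already show that no simple factor has only algebraic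
periods -/
theorem na_of_vp (hKa : ∀ x : ℂ, IsAlgebraic ℚ x → x ∈ K) (hP : IsSubtorsor K P) (hcP : c ∈ P) (hd : Dec P Z s)
    (hv : Vp K c P) {i : Fin r} {C : Matrix B B ℂ} (hC : ∀ a b, IsAlgebraic ℚ (C a b)) (hC0 : C ≠ 0)
    (hCs : c * C * c⁻¹ ∈ s i) : ∃ a b, Transcendental ℚ ((c * C * c⁻¹) a b) := by
  by_contra hcon
  have hcon' : ∀ a b, IsAlgebraic ℚ ((c * C * c⁻¹) a b) := by
    intro a b
    by_contra h
    exact hcon ⟨a, b, h⟩
  clear hcon
  set u := c * C * c⁻¹ with hu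
  have hcc : c * c⁻¹ = 1 := mul_inv' hP hcP
  have hcc' : c⁻¹ * c = 1 := inv_mul' hP hcP
  have hu0 : u ≠ 0 := by
    intro h0
    apply hC0
    calc C = (c⁻¹ * c) * C * (c⁻¹ * c) := by rw [hcc', Matrix.one_mul, Matrix.mul_one]
      _ = c⁻¹ * u * c := by rw [hu]; simp only [Matrix.mul_assoc]
      _ = 0 := by rw [h0, Matrix.mul_zero, Matrix.zero_mul]
  -- a nilpotent element which does not commute with `u`
  obtain ⟨E, hEs, hEn, hEu⟩ : ∃ E ∈ s i, IsNilpotent E ∧ E * u - u * E ≠ 0 := by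
    by_contra hcon
    push Not at hcon
    apply hu0
    refine hd.centre i u hCs fun v hv' => ?_
    have h1 := hd.nil i hv'
    clear hv'
    induction h1 using Submodule.span_induction with
    | mem E hE => exact (sub_eq_zero.1 (hcon E hE.1 hE.2)).symm
    | zero => rw [Matrix.mul_zero, Matrix.zero_mul]
    | add x y _ _ hx hy => rw [Matrix.mul_add, Matrix.add_mul, hx, hy]
    | smul a x _ hx => rw [Matrix.mul_smul, Matrix.smul_mul, hx]
  -- a conjugate of `u` which is not proportional to `u`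
  obtain ⟨t, ht⟩ : ∃ t : ℂ, fl (IsNilpotent.exp (t • E) * u * IsNilpotent.exp (-(t • E))) ∉
      Submodule.span ℂ {fl u} := by
    by_contra hcon
    push Not at hcon
    have h1 := bracket_mem hEn hcon
    obtain ⟨z, hz⟩ := Submodule.mem_span_singleton.1 h1
    have h2 : E * u - u * E = z • u := by
      have := congrArg um hz
      rw [um_smul, um_fl, um_fl] at this
      exact this.symm
    obtain ⟨k, hk⟩ : IsNilpotent (LinearMap.mulLeft ℂ E - LinearMap.mulRight ℂ E) :=
      (LinearMap.commute_mulLeft_right (R := ℂ) E E).isNilpotent_sub ((LinearMap.isNilpotent_mulLeft_iff ℂ E).2 hEn)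
        ((LinearMap.isNilpotent_mulRight_iff ℂ E).2 hEn)
    have h3 : ∀ m : ℕ, ((LinearMap.mulLeft ℂ E - LinearMap.mulRight ℂ E) ^ m) u = z ^ m • u := by
      intro m
      induction m with
      | zero => simp
      | succ m ih =>
        rw [pow_succ', Module.End.mul_apply, ih, map_smul]
        have h4 : (LinearMap.mulLeft ℂ E - LinearMap.mulRight ℂ E) u = z • u := by
          rw [LinearMap.sub_apply, LinearMap.mulLeft_apply, LinearMap.mulRight_apply, h2]
        rw [h4, smul_smul, ← pow_succ]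
    have h5 := h3 k
    rw [hk, LinearMap.zero_apply] at h5
    have h6 : z ^ k = 0 := (smul_eq_zero.1 h5.symm).resolve_right hu0
    have h7 : z = 0 := by
      by_contra h
      exact pow_ne_zero k h h6
    apply hEu
    rw [h2, h7, zero_smul]
  set g := IsNilpotent.exp (t • E) with hg
  set g' := IsNilpotent.exp (-(t • E)) with hg'
  have hEt : IsNilpotent (t • E) := hEn.smul t
  have hx : g * c ∈ P := exp_mem hP hEt (hd.sub i _ ((s i).smul_mem t hEs)) hcP
  have hgg : g' * g = 1 := IsNilpotent.exp_neg_mul_exp_self hEt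
  have hxu : g * c * C * (g * c)⁻¹ = g * u * g' := by
    rw [Matrix.mul_inv_rev, Matrix.inv_eq_left_inv hgg, hu]
    simp only [Matrix.mul_assoc]
  obtain ⟨a0, b0, h0⟩ : ∃ a0 b0, u a0 b0 ≠ 0 := by
    by_contra hcon
    push Not at hcon
    apply hu0
    ext a b
    exact hcon a b
  apply ht
  refine Submodule.mem_span_singleton.2 ⟨(g * u * g') a0 b0 / u a0 b0, ?_⟩
  funext ab
  obtain ⟨a, b⟩ := ab
  rw [Pi.smul_apply, smul_eq_mul]
  show (g * u * g') a0 b0 / u a0 b0 * u a b = (g * u * g') a b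
  -- the matrix `A`
  have h8 := hv (u a0 b0 • Matrix.single b a (1 : ℂ) - u a b • Matrix.single b0 a0 (1 : ℂ)) C (fun p q => by
      apply hKa
      rw [Matrix.sub_apply, Matrix.smul_apply, Matrix.smul_apply, smul_eq_mul, smul_eq_mul]
      have hs : ∀ (p' q' p q : B), IsAlgebraic ℚ ((Matrix.single p' q' (1 : ℂ)) p q) := by
        intro p' q' p q
        rw [Matrix.single_apply]
        split_ifs
        · exact isAlgebraic_one
        · exact isAlgebraic_zero
      exact ((hcon' a0 b0).mul (hs _ _ _ _)).sub ((hcon' a b).mul (hs _ _ _ _))) (fun p q => hKa _ (hC p q))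
  have h9 : ∀ M : Matrix B B ℂ, ((u a0 b0 • Matrix.single b a (1 : ℂ) - u a b • Matrix.single b0 a0 (1 : ℂ)) * M).trace =
      u a0 b0 * M a b - u a b * M a0 b0 := by
    intro M
    rw [Matrix.sub_mul, Matrix.trace_sub, Matrix.smul_mul, Matrix.smul_mul, Matrix.trace_smul, Matrix.trace_smul,
      Matrix.trace_mul_comm, Matrix.trace_mul_comm (Matrix.single b0 a0 1)]
    have h10 : ∀ (p q : B), (M * Matrix.single p q (1 : ℂ)).trace = M q p := by
      intro p q
      simp only [Matrix.trace, Matrix.diag_apply, Matrix.mul_apply, Matrix.single_apply]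
      rw [Finset.sum_eq_single q]
      · rw [Finset.sum_eq_single p]
        · simp
        · intro y _ hy
          rw [if_neg (fun h => hy h.1.symm), mul_zero]
        · intro h; exact absurd (Finset.mem_univ _) h
      · intro y _ hy
        refine Finset.sum_eq_zero fun z _ => ?_
        rw [if_neg (fun h => hy h.2.symm), mul_zero]
      · intro h; exact absurd (Finset.mem_univ _) h
    rw [h10, h10, smul_eq_mul, smul_eq_mul]
  have h11 := h8 (by
    rw [Matrix.mul_assoc, Matrix.mul_assoc, ← Matrix.mul_assoc c, ← hu, h9]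
    ring) (g * c) hx
  rw [Matrix.mul_assoc, Matrix.mul_assoc, ← Matrix.mul_assoc (g * c), hxu, h9] at h11
  field_simp
  linear_combination -h11

/-- **Main theorem over the field of algebraic numbers** -/
theorem full_Qb (hK : ∀ x : ℂ, x ∈ K ↔ IsAlgebraic ℚ x) (hP : IsSubtorsor K P) (hcP : c ∈ P)
    (hd : Dec P (Submodule.span ℂ {1}) s) (hgen : Gen P s)
    (hT : IsSubtorsor K T) (hcT : c ∈ T) (hv : Vp K c P) (hdet : Transcendental ℚ c.det)
    (hrat : ∀ i, ∃ C : Matrix B B ℂ, (∀ a b, IsAlgebraic ℚ (C a b)) ∧ C ≠ 0 ∧ c * C * c⁻¹ ∈ s i) : P ⊆ T :=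
  full (fun x hx => (hK x).1 hx) hP hcP hd hgen hT hcT hv hdet fun i => by
    obtain ⟨C, hC, hC0, hCs⟩ := hrat i
    exact ⟨C, hC, hCs, na_of_vp (fun x hx => (hK x).2 hx) hP hcP hd hv hC hC0 hCs⟩

end Pool.Agent.Q92.PT
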